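import Pool.Agent.Helper36.Frac.Const
import Pool.Agent.Helper50.FracR.Graph
import Pool.Agent.Helper78.FracLB.Final

/-!
# Fractional chromatic number of `d`-degenerate `K_r`-free graphs: the order of growth

For every fixed `r ≥ 3` we prove `g_r(d) = Θ_r (d / log^{(r-2)} d)`.
-/

open Finset

namespace Pool.Agent.Results.MP_7ea12b_co.AllR

/-- `G` is `d`-degenerate: every nonempty subgraph `H` of `G` has a vertex whose degree in `H` is
at most `d`. -/
def Degenerate {V : Type*} (G : SimpleGraph V) (d : ℕ) : Prop :=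
  ∀ H : G.Subgraph, H.verts.Nonempty → ∃ v ∈ H.verts, (H.neighborSet v).ncard ≤ d

open Classical in
/-- `x` is a feasible point of the linear program that defines the fractional chromatic number:
nonnegative weights on the sets of vertices, supported on the independent sets, such that
the sets containing any given vertex have total weight at least `1`. -/
def Feasible {V : Type*} [Fintype V] (G : SimpleGraph V) (x : Finset V → ℝ) : Prop :=
  (∀ I, 0 ≤ x I) ∧ (∀ I : Finset V, ¬ G.IsIndepSet I → x I = 0) ∧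
    ∀ v, 1 ≤ ∑ I with v ∈ I, x I

/-- The fractional chromatic number: the infimum of the total weight over the feasible points. -/
noncomputable def fracChrom {V : Type*} [Fintype V] (G : SimpleGraph V) : ℝ :=
  sInf {t | ∃ x : Finset V → ℝ, Feasible G x ∧ ∑ I, x I = t}

/-- The fractional chromatic numbers of all finite `d`-degenerate `K_r`-free graphs. -/
def values (r d : ℕ) : Set ℝ :=
  {t | ∃ (n : ℕ) (G : SimpleGraph (Fin n)), Degenerate G d ∧ G.CliqueFree r ∧ fracChrom G = t}

/-- `g_r(d)`: the supremum of the fractional chromatic numbers of the finite `d`-degenerate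
`K_r`-free graphs. -/
noncomputable def g (r d : ℕ) : ℝ := sSup (values r d)

theorem fracChrom_le {V : Type*} [Fintype V] (G : SimpleGraph V) (d : ℕ) (hG : Degenerate G d)
    {s : ℕ} (hs : 1 ≤ s) (hfree : G.CliqueFree (s + 2)) {κ β δ T M : ℕ → ℝ} {L p qmax : ℝ}
    (hp : 0 < p) (hpd : p * d ≤ L) (hC : Helper36.Frac.Con s L κ β δ T M) (hq0 : 0 ≤ qmax)
    (hqb : 4 * p * Real.exp (Helper36.Frac.Bd s κ M) ≤ qmax)
    (hq : ∀ i, 1 ≤ i → i ≤ s → κ i * qmax ^ i ≤ 1 / 4) :
    fracChrom G ≤ 2 / p := by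
  classical
  have hdeg : ∀ s : Finset V, s.Nonempty → ∃ v ∈ s, (s.filter fun w => G.Adj v w).card ≤ d := by
    intro s hs
    obtain ⟨v, hv, hvd⟩ := hG ((⊤ : G.Subgraph).induce (s : Set V)) hs
    refine ⟨v, by simpa using hv, ?_⟩
    have : ((⊤ : G.Subgraph).induce (s : Set V)).neighborSet v =
        ((s.filter fun w => G.Adj v w : Finset V) : Set V) := by
      have hv' : v ∈ s := by simpa using hv
      ext w
      simp [SimpleGraph.Subgraph.induce, SimpleGraph.Subgraph.neighborSet, hv']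
    rwa [this, Set.ncard_coe_finset] at hvd
  obtain ⟨x, hx0, hx1, hx2, hx3⟩ :=
    Helper50.FracR.exists_weights G d hdeg hfree hs hp hpd hC hq0 hqb hq
  have hmem : (2 / p : ℝ) ∈ {t | ∃ x : Finset V → ℝ, Feasible G x ∧ ∑ I, x I = t} := by
    refine ⟨x, ⟨hx0, hx1, fun v => ?_⟩, hx3⟩
    convert hx2 v
  have hbdd : BddBelow {t | ∃ x : Finset V → ℝ, Feasible G x ∧ ∑ I, x I = t} := by
    refine ⟨0, ?_⟩
    rintro t ⟨y, hy, rfl⟩
    exact Finset.sum_nonneg fun I _ => hy.1 I
  exact csInf_le hbdd hmem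

theorem values_eq (r d : ℕ) : values r d = Helper78.FracLB.values r d := rfl

/-- For every fixed `r ≥ 3`, the largest fractional chromatic number of a `d`-degenerate
`K_r`-free graph is, up to constant factors depending on `r` only, `d / log^{(r-2)} d`. -/
theorem result (r : ℕ) (hr : 3 ≤ r) : ∃ C : ℝ, 0 < C ∧ ∃ d₀ : ℕ, ∀ d : ℕ, d₀ ≤ d →
    0 < Real.log^[r - 2] (d : ℝ) ∧ BddAbove (values r d) ∧
      (d : ℝ) / (8 * Real.log^[r - 2] (d : ℝ)) ≤ g r d ∧
      g r d ≤ C * (d / Real.log^[r - 2] (d : ℝ)) := by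
  obtain ⟨s, rfl⟩ : ∃ s, r = s + 2 := ⟨r - 2, by omega⟩
  have hs : 1 ≤ s := by omega
  simp only [Nat.add_sub_cancel]
  obtain ⟨C, hC, d₀, h⟩ := Helper36.Frac.const_exists s hs
  obtain ⟨d₁, h1⟩ := Helper78.FracLB.lower (s + 2) (by omega)
  simp only [Nat.add_sub_cancel] at h1
  refine ⟨2 * C, by positivity, max (max d₀ d₁) 1, fun d hd => ?_⟩
  have hd0 : d₀ ≤ d := ((le_max_left _ _).trans (le_max_left _ _)).trans hd
  have hd1 : d₁ ≤ d := ((le_max_right _ _).trans (le_max_left _ _)).trans hd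
  have hd2 : 1 ≤ d := (le_max_right _ _).trans hd
  have hd' : (0 : ℝ) < d := by exact_mod_cast hd2
  obtain ⟨hl, κ, β, δ, T, M, qmax, hcon, hq0, hqb, hq⟩ := h d hd0
  set l := Real.log^[s] (d : ℝ) with hldef
  have hup : ∀ t ∈ values (s + 2) d, t ≤ 2 * C * (d / l) := by
    rintro t ⟨n, G, hG, hfree, rfl⟩
    have hp : 0 < l / C / d := by positivity
    have hle := fracChrom_le G d hG hs hfree hp (by
      have : l / C / d * d = l / C := by field_simp
      exact this.le) hcon hq0 hqb hq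
    refine hle.trans (le_of_eq ?_)
    field_simp
  refine ⟨hl, ⟨_, hup⟩, ?_, ?_⟩
  · obtain ⟨t, ht, hle⟩ := h1 d hd1
    exact hle.trans (le_csSup ⟨_, hup⟩ ht)
  · refine csSup_le ?_ hup
    obtain ⟨t, ht, _⟩ := h1 d hd1
    exact ⟨t, ht⟩

end Pool.Agent.Results.MP_7ea12b_co.AllR
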